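import Mathlib
import Pool.Agent.H22.SyzDefs
import Pool.Agent.H22.Syz

set_option autoImplicit false

open Pool.Agent.H22.Syz in
/-- Over every field there are a strongly connected finite quiver, an admissible ideal and a
vertex `x` whose simple module has infinite projective dimension while `x` lies in the support
of no syzygy `Ω n`, `n ≥ 1`. -/
theorem Pool.Agent.Results.MP_eb0abf_al.NoRecurrence.result (k : Type) [Field k] :
    ∃ (V E : Type) (_ : Fintype V) (_ : Fintype E) (s t : E → V), StronglyConnected s t ∧
      ∃ (I : Ideal (PathAlg k s t)) (_ : I.IsTwoSided), Admissible k s t I ∧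
        ∃ x : V, NonRecurrent (Ideal.Quotient.mk I (vert k s t x)) :=
  ⟨Fin 3, Fin 4, inferInstance, inferInstance, sQ, tQ, strong, II k, inferInstance, adm k, 0,
    (data k).Om, Pr (ee k 0) (ee k 1), (data k).simple, (data k).supp0, (data k).minimal,
    pd_top _ _ (data k).minimal (data k).nontriv, (data k).supp⟩
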